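import Pool.Agent.Lib.MP_9fe581_an.HD.Defs
import Pool.Agent.Lib.MP_9fe581_an.HD.CBasic

/-!
# HD, T2: block cocycles: a cocycle over `ψ(β) + ρ`, `q ρ = 0`, along the orbit of `x` is a block of a cocycle over `β`
-/

open Finset MeasureTheory Filter Topology UnitAddTorus
open scoped ComplexConjugate Matrix

namespace Pool.Agent.Lib.MP_9fe581_an.HD

variable {d : ℕ} {ι : Type} [Fintype ι] [DecidableEq ι]

variable {r : ℕ}

/-- the homomorphism of tori given by an integer matrix -/
noncomputable def psi (C : Fin d → Fin r → ℤ) (y : Td r) : Td d := fun i => ∑ k, C i k • y k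

theorem psi_nsmul (C : Fin d → Fin r → ℤ) (n : ℕ) (y : Td r) : psi C (n • y) = n • psi C y := by
  funext i
  unfold psi
  rw [Pi.smul_apply, Finset.smul_sum]
  refine Finset.sum_congr rfl fun k _ => ?_
  rw [Pi.smul_apply, smul_comm]

theorem psi_cont (C : Fin d → Fin r → ℤ) : Continuous (psi C : Td r → Td d) := by
  unfold psi
  refine continuous_pi fun i => continuous_finsetSum _ fun k _ => ?_
  exact (continuous_apply k).zsmul (C i k)

/-- the block cocycle: block `j` goes to block `j + 1` by `A (x + ψ y + j ρ)` -/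
noncomputable def blk (A : Td d → Matrix ι ι ℂ) (C : Fin d → Fin r → ℤ) (ρ : Td d) (q : ℕ) [NeZero q] (x : Td d)
    (y : Td r) : Matrix (ZMod q × ι) (ZMod q × ι) ℂ :=
  Matrix.of fun s t => if s.1 = t.1 + 1 then A (x + psi C y + (t.1).val • ρ) s.2 t.2 else 0

theorem blk_uc {A : Td d → Matrix ι ι ℂ} (hU : UC A 1) (C : Fin d → Fin r → ℤ) (ρ : Td d) (q : ℕ) [NeZero q]
    (x : Td d) : UC (blk A C ρ q x) 1 where
  cont := by
    refine continuous_matrix fun s t => ?_
    unfold blk
    simp only [Matrix.of_apply]
    by_cases h : s.1 = t.1 + 1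
    · simp only [if_pos h]
      have h1 : Continuous fun y : Td r => A (x + psi C y + (t.1).val • ρ) :=
        hU.cont.comp ((continuous_const.add (psi_cont C)).add continuous_const)
      exact h1.matrix_elem s.2 t.2
    · simp only [if_neg h]
      exact continuous_const
  QH := Matrix.conjTranspose_one
  QQ := one_mul 1
  QA := fun y => one_mul _
  AQ := fun y => mul_one _
  AAH := by
    intro y
    ext s t
    rw [Matrix.mul_apply, Fintype.sum_prod_type]
    simp only [Matrix.conjTranspose_apply, blk, Matrix.of_apply]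
    rw [Finset.sum_eq_single (s.1 - 1)]
    · simp only [sub_add_cancel, if_true]
      by_cases h : t.1 = s.1
      · simp only [if_pos h]
        have h1 := congrFun (congrFun (hU.AAH (x + psi C y + (s.1 - 1).val • ρ)) s.2) t.2
        rw [Matrix.mul_apply] at h1
        simp only [Matrix.conjTranspose_apply] at h1
        rw [h1]
        by_cases h2 : s.2 = t.2
        · rw [show s = t from Prod.ext h.symm h2, Matrix.one_apply_eq, Matrix.one_apply_eq]
        · rw [Matrix.one_apply_ne h2, Matrix.one_apply_ne fun e => h2 (congrArg Prod.snd e)]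
      · simp only [if_neg h, star_zero, mul_zero, Finset.sum_const_zero]
        rw [Matrix.one_apply_ne fun e => h (congrArg Prod.fst e).symm]
    · intro b _ hb
      refine Finset.sum_eq_zero fun l _ => ?_
      rw [if_neg, zero_mul]
      intro e
      exact hb (by rw [e, add_sub_cancel_right])
    · intro h
      exact absurd (Finset.mem_univ _) h
  AHA := by
    intro y
    ext s t
    rw [Matrix.mul_apply, Fintype.sum_prod_type]
    simp only [Matrix.conjTranspose_apply, blk, Matrix.of_apply]
    rw [Finset.sum_eq_single (s.1 + 1)]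
    · simp only [if_true]
      by_cases h : s.1 = t.1
      · have h0 : s.1 + 1 = t.1 + 1 := by rw [h]
        simp only [if_pos h0]
        have h1 := congrFun (congrFun (hU.AHA (x + psi C y + (t.1).val • ρ)) s.2) t.2
        rw [Matrix.mul_apply] at h1
        simp only [Matrix.conjTranspose_apply] at h1
        rw [h, h1]
        by_cases h2 : s.2 = t.2
        · rw [show s = t from Prod.ext h h2, Matrix.one_apply_eq, Matrix.one_apply_eq]
        · rw [Matrix.one_apply_ne h2, Matrix.one_apply_ne fun e => h2 (congrArg Prod.snd e)]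
      · have h0 : ¬ (s.1 + 1 = t.1 + 1) := fun e => h (add_right_cancel e)
        simp only [if_neg h0, mul_zero, Finset.sum_const_zero]
        rw [Matrix.one_apply_ne fun e => h (congrArg Prod.fst e)]
    · intro b _ hb
      refine Finset.sum_eq_zero fun l _ => ?_
      rw [if_neg hb, star_zero, zero_mul]
    · intro h
      exact absurd (Finset.mem_univ _) h

/-- one step of the block cocycle -/
theorem blk_step {A : Td d → Matrix ι ι ℂ} (C : Fin d → Fin r → ℤ) (ρ : Td d) (q : ℕ) [NeZero q] (x : Td d)
    (y : Td r) (M : Matrix (ZMod q × ι) (ZMod q × ι) ℂ) (t : ZMod q) (i : ι) (s : ZMod q × ι) :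
    (blk A C ρ q x y * M) (t + 1, i) s = ∑ l, A (x + psi C y + t.val • ρ) i l * M (t, l) s := by
  rw [Matrix.mul_apply, Fintype.sum_prod_type]
  simp only [blk, Matrix.of_apply]
  rw [Finset.sum_eq_single t]
  · simp only [if_true]
  · intro b _ hb
    refine Finset.sum_eq_zero fun l _ => ?_
    rw [if_neg, zero_mul]
    intro e
    exact hb (add_right_cancel e).symm
  · intro h
    exact absurd (Finset.mem_univ _) h

theorem blk_cp_zero {A : Td d → Matrix ι ι ℂ} (C : Fin d → Fin r → ℤ) (ρ : Td d) (q : ℕ) [NeZero q]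
    (β : Td r) (x : Td d) (n : ℕ) (t : ZMod q) (ht : t ≠ n) (i k : ι) :
    cp β (blk A C ρ q x) 1 n 0 (t, i) (0, k) = 0 := by
  induction n generalizing t i with
  | zero =>
    rw [cp, Matrix.one_apply_ne]
    intro e
    exact ht (by simpa using congrArg Prod.fst e)
  | succ n ih =>
    rw [cp]
    obtain ⟨t', rfl⟩ : ∃ t', t = t' + 1 := ⟨t - 1, (sub_add_cancel t 1).symm⟩
    rw [blk_step]
    refine Finset.sum_eq_zero fun l _ => ?_
    rw [ih t' (fun e => ht (by rw [e]; push_cast; rfl)) l, mul_zero]

theorem blk_cp {A : Td d → Matrix ι ι ℂ} (C : Fin d → Fin r → ℤ) (ρ : Td d) (q : ℕ) [NeZero q] (hρ : q • ρ = 0)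
    (β : Td r) (x : Td d) (n : ℕ) (i k : ι) :
    cp (psi C β + ρ) A 1 n x i k = cp β (blk A C ρ q x) 1 n 0 (((n : ℕ) : ZMod q), i) (0, k) := by
  induction n generalizing i with
  | zero =>
    rw [cp, cp, Nat.cast_zero]
    by_cases h : i = k
    · rw [h, Matrix.one_apply_eq, Matrix.one_apply_eq]
    · rw [Matrix.one_apply_ne h, Matrix.one_apply_ne fun e => h (congrArg Prod.snd e)]
  | succ n ih =>
    rw [cp, cp, Nat.cast_succ, blk_step, Matrix.mul_apply]
    refine Finset.sum_congr rfl fun l _ => ?_
    rw [ih l]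
    congr 2
    have h1 : ((n : ZMod q).val) • ρ = n • ρ := by
      rw [ZMod.val_natCast]
      conv_rhs => rw [← Nat.mod_add_div n q]
      rw [add_nsmul, mul_comm q, mul_nsmul', hρ, smul_zero, add_zero]
    rw [h1, zero_add, psi_nsmul, nsmul_add, add_assoc]

end Pool.Agent.Lib.MP_9fe581_an.HD
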