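import Pool.Agent.Lib.MP_9fe581_an.HD.DenseG
import Pool.Agent.Lib.MP_9fe581_an.HD.Iter

/-!
# HD: compact group extensions of rotations, nothing ergodic

`OrthOn T f u Z`: the sums `∑_{n ≤ N} u n * f (T^n z)` are `o(N)` uniformly for `z` in `Z`. If this holds for the entries of all
continuous unitary cocycles over the rotation by `α` (`CocOrth`), it holds for all continuous functions on every
extension of the rotation by a compact group whose finite dimensional unitary representations separate points, with a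
continuous cocycle.
-/

open Finset MeasureTheory Filter Topology UnitAddTorus
open scoped ComplexConjugate Matrix

namespace Pool.Agent.Lib.MP_9fe581_an.HD

/-- orthogonality to the sequence `u`, uniform on the set `Z` of points -/
def OrthOn {X : Type} (T : X → X) (f : X → ℂ) (u : ℕ → ℂ) (Z : Set X) : Prop :=
  ∀ ε : ℝ, 0 < ε → ∃ N0 : ℕ, ∀ N ≥ N0, ∀ z ∈ Z, ‖∑ n ∈ Icc 1 N, u n * f (T^[n] z)‖ ≤ ε * N

/-- orthogonality of the sequence `u` to all entries of all continuous unitary cocycles over the rotation by `α`, uniform on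
the set `Z` of points -/
def CocOrth {d : ℕ} (α : Td d) (u : ℕ → ℂ) (Z : Set (Td d)) : Prop :=
  ∀ (m : ℕ) (A : Td d → Matrix (Fin m) (Fin m) ℂ), UC A 1 → ∀ ε : ℝ, 0 < ε → ∃ N0 : ℕ, ∀ N ≥ N0, ∀ x ∈ Z,
    ∀ i j, ‖∑ n ∈ Icc 1 N, u n * cp α A 1 n x i j‖ ≤ ε * N

section closure

variable {X : Type} {T : X → X} {u : ℕ → ℂ} {Z : Set X}

theorem po_zero : OrthOn T (fun _ => (0 : ℂ)) u Z := by
  intro ε hε
  refine ⟨0, fun N _ z _ => ?_⟩
  simp only [mul_zero, sum_const_zero, norm_zero]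
  positivity

theorem po_add {f g : X → ℂ} (hf : OrthOn T f u Z) (hg : OrthOn T g u Z) : OrthOn T (fun z => f z + g z) u Z := by
  intro ε hε
  obtain ⟨N1, h1⟩ := hf (ε / 2) (half_pos hε)
  obtain ⟨N2, h2⟩ := hg (ε / 2) (half_pos hε)
  refine ⟨max N1 N2, fun N hN z hz => ?_⟩
  have e : ∑ n ∈ Icc 1 N, u n * (f (T^[n] z) + g (T^[n] z)) =
      ∑ n ∈ Icc 1 N, u n * f (T^[n] z) + ∑ n ∈ Icc 1 N, u n * g (T^[n] z) := by
    rw [← sum_add_distrib]
    exact sum_congr rfl fun n _ => mul_add _ _ _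
  rw [e]
  have a1 := h1 N (le_trans (le_max_left _ _) hN) z hz
  have a2 := h2 N (le_trans (le_max_right _ _) hN) z hz
  calc _ ≤ _ := norm_add_le _ _
    _ ≤ ε / 2 * N + ε / 2 * N := add_le_add a1 a2
    _ = ε * N := by ring

theorem po_smul {f : X → ℂ} (hf : OrthOn T f u Z) (c : ℂ) : OrthOn T (fun z => c * f z) u Z := by
  intro ε hε
  obtain ⟨N1, h1⟩ := hf (ε / (‖c‖ + 1)) (by positivity)
  refine ⟨N1, fun N hN z hz => ?_⟩
  have e : ∑ n ∈ Icc 1 N, u n * (c * f (T^[n] z)) = c * ∑ n ∈ Icc 1 N, u n * f (T^[n] z) := by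
    rw [mul_sum]
    exact sum_congr rfl fun n _ => by ring
  rw [e, norm_mul]
  have a1 := h1 N hN z hz
  have hc : (0 : ℝ) < ‖c‖ + 1 := by positivity
  calc ‖c‖ * _ ≤ (‖c‖ + 1) * (ε / (‖c‖ + 1) * N) := by
        apply mul_le_mul (by linarith) a1 (norm_nonneg _) hc.le
    _ = ε * N := by field_simp

theorem po_approx {f : X → ℂ} (hu : ∀ n, ‖u n‖ ≤ 1)
    (h : ∀ ε : ℝ, 0 < ε → ∃ g : X → ℂ, (∀ z, ‖f z - g z‖ ≤ ε) ∧ OrthOn T g u Z) : OrthOn T f u Z := by
  intro ε hε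
  obtain ⟨g, hg, hgo⟩ := h (ε / 2) (half_pos hε)
  obtain ⟨N1, h1⟩ := hgo (ε / 2) (half_pos hε)
  refine ⟨N1, fun N hN z hz => ?_⟩
  have e : ∑ n ∈ Icc 1 N, u n * f (T^[n] z) =
      ∑ n ∈ Icc 1 N, u n * (f (T^[n] z) - g (T^[n] z)) + ∑ n ∈ Icc 1 N, u n * g (T^[n] z) := by
    rw [← sum_add_distrib]
    exact sum_congr rfl fun n _ => by ring
  rw [e]
  have a1 := h1 N hN z hz
  have a2 : ‖∑ n ∈ Icc 1 N, u n * (f (T^[n] z) - g (T^[n] z))‖ ≤ ε / 2 * N := by
    calc _ ≤ ∑ n ∈ Icc 1 N, ‖u n * (f (T^[n] z) - g (T^[n] z))‖ := norm_sum_le _ _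
      _ ≤ ∑ n ∈ Icc 1 N, ε / 2 := by
          refine sum_le_sum fun n _ => ?_
          rw [norm_mul]
          calc ‖u n‖ * _ ≤ 1 * (ε / 2) := mul_le_mul (hu n) (hg _) (norm_nonneg _) zero_le_one
            _ = ε / 2 := one_mul _
      _ = ε / 2 * N := by
          rw [sum_const, Nat.card_Icc, nsmul_eq_mul]
          simp only [Nat.add_sub_cancel]
          ring
  calc _ ≤ _ := norm_add_le _ _
    _ ≤ ε / 2 * N + ε / 2 * N := add_le_add a2 a1
    _ = ε * N := by ring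

end closure

variable {d : ℕ} {G : Type} [Group G] [TopologicalSpace G] {α : Td d} {φ : Td d → G}

theorem ex_norm (k : Fin d → ℤ) (x : Td d) : mFourier k x * star (mFourier k x) = 1 := by
  have h : mFourier k x * mFourier (-k) x = 1 := by
    rw [← mFourier_add, add_neg_cancel, mFourier_zero]
    rfl
  rwa [mFourier_neg] at h

theorem ex_mF_norm (k : Fin d → ℤ) (x : Td d) : ‖mFourier k x‖ ≤ 1 := by
  have := (mFourier k).norm_coe_le_norm x
  rwa [mFourier_norm] at this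

theorem ex_entry {m : ℕ} {π : G → Matrix (Fin m) (Fin m) ℂ} (hπ : URep π) (y : G) (i j : Fin m) : ‖π y i j‖ ≤ 1 := by
  have h := congrFun (congrFun (hπ.uni y) i) i
  rw [Matrix.mul_apply, Matrix.one_apply_eq] at h
  have h2 : ∑ j, ‖π y i j‖ ^ 2 = 1 := by
    have : ((∑ j, ‖π y i j‖ ^ 2 : ℝ) : ℂ) = 1 := by
      rw [← h]
      push_cast
      refine sum_congr rfl fun j _ => ?_
      rw [Matrix.conjTranspose_apply]
      have : π y i j * star (π y i j) = ((‖π y i j‖ ^ 2 : ℝ) : ℂ) := by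
        rw [← Complex.normSq_eq_norm_sq, Complex.normSq_eq_conj_mul_self, mul_comm]; rfl
      rw [this]; push_cast; rfl
    exact_mod_cast this
  have h3 : ‖π y i j‖ ^ 2 ≤ 1 := by
    rw [← h2]
    exact single_le_sum (f := fun j => ‖π y i j‖ ^ 2) (fun _ _ => sq_nonneg _) (mem_univ j)
  nlinarith [norm_nonneg (π y i j)]

theorem ex_uc {m : ℕ} {π : G → Matrix (Fin m) (Fin m) ℂ} (hπ : URep π) (k : Fin d → ℤ) (hφ : Continuous φ) :
    UC (fun x => mFourier k α • π (φ x)) 1 where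
  cont := (hπ.cont.comp hφ).const_smul (mFourier k α)
  QH := Matrix.conjTranspose_one
  QQ := Matrix.one_mul _
  QA x := Matrix.one_mul _
  AQ x := Matrix.mul_one _
  AAH x := by
    rw [Matrix.conjTranspose_smul, Matrix.smul_mul, Matrix.mul_smul, smul_smul, hπ.uni, ex_norm, one_smul]
  AHA x := by
    have h : (π (φ x))ᴴ * π (φ x) = 1 := mul_eq_one_comm.mp (hπ.uni _)
    rw [Matrix.conjTranspose_smul, Matrix.smul_mul, Matrix.mul_smul, smul_smul, h, mul_comm, ex_norm, one_smul]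

theorem ex_cp {m : ℕ} {π : G → Matrix (Fin m) (Fin m) ℂ} (hπ : URep π) (k : Fin d → ℤ) (n : ℕ) (x : Td d) :
    cp α (fun x => mFourier k α • π (φ x)) 1 n x = mFourier k (n • α) • π (pr α φ n x) := by
  induction n with
  | zero => rw [cp, pr, hπ.one, zero_nsmul, it_mF_zero, one_smul]
  | succ n ih =>
    rw [cp, ih, pr, Matrix.smul_mul, Matrix.mul_smul, smul_smul, ← hπ.mul, succ_nsmul, it_mF_add,
      mul_comm (mFourier k α)]

theorem ex_gen {u : ℕ → ℂ} {Z : Set (Td d)} (hall : CocOrth α u Z) {m : ℕ} {π : G → Matrix (Fin m) (Fin m) ℂ}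
    (hπ : URep π) (k : Fin d → ℤ) (hφ : Continuous φ) (i j : Fin m) :
    OrthOn (skew α φ) (fun z => mFourier k z.1 * π z.2 i j) u (Prod.fst ⁻¹' Z) := by
  intro ε hε
  obtain ⟨N0, hN0⟩ := hall m _ (ex_uc (α := α) hπ k hφ) (ε / (m + 1)) (by positivity)
  refine ⟨N0, fun N hN z hz => ?_⟩
  have e : ∑ n ∈ Icc 1 N, u n * (mFourier k ((skew α φ)^[n] z).1 * π ((skew α φ)^[n] z).2 i j) =
      ∑ a, mFourier k z.1 * π z.2 a j * ∑ n ∈ Icc 1 N, u n * cp α (fun x => mFourier k α • π (φ x)) 1 n z.1 i a := by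
    simp_rw [mul_sum]
    rw [sum_comm]
    refine sum_congr rfl fun n _ => ?_
    rw [skew_iter]
    simp only [ex_cp hπ]
    rw [it_mF_add, hπ.mul, Matrix.mul_apply, mul_sum, mul_sum]
    refine sum_congr rfl fun a _ => ?_
    rw [Matrix.smul_apply, smul_eq_mul]
    ring
  rw [e]
  calc _ ≤ ∑ a, ‖mFourier k z.1 * π z.2 a j * ∑ n ∈ Icc 1 N, u n * cp α (fun x => mFourier k α • π (φ x)) 1 n z.1 i a‖ :=
        norm_sum_le _ _
    _ ≤ ∑ _a : Fin m, ε / (m + 1) * N := by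
        refine sum_le_sum fun a _ => ?_
        rw [norm_mul, norm_mul]
        have h1 := ex_mF_norm k z.1
        have h2 := ex_entry hπ z.2 a j
        have h3 := hN0 N hN z.1 hz i a
        calc _ ≤ 1 * 1 * (ε / (m + 1) * N) := by gcongr
          _ = _ := by ring
    _ = m * (ε / (m + 1) * N) := by
        rw [sum_const, card_univ, nsmul_eq_mul, Fintype.card_fin]
    _ ≤ (m + 1) * (ε / (m + 1) * N) := by
        have : 0 ≤ ε / (m + 1) * N := by positivity
        nlinarith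
    _ = ε * N := by field_simp

variable [CompactSpace G]

/-- all continuous functions on the extension -/
theorem orthOn_of (hs : Sep G) {u : ℕ → ℂ} (hu : ∀ n, ‖u n‖ ≤ 1) {Z : Set (Td d)} (hall : CocOrth α u Z)
    (hφ : Continuous φ) (f : C(Td d × G, ℂ)) : OrthOn (skew α φ) f u (Prod.fst ⁻¹' Z) := by
  have key : ∀ g : Td d × G → ℂ, g ∈ Submodule.span ℂ (dgSet d G) → OrthOn (skew α φ) g u (Prod.fst ⁻¹' Z) := by
    intro g hg
    induction hg using Submodule.span_induction with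
    | mem h hh =>
      obtain ⟨k, m, π, hπ, i, j, rfl⟩ := hh
      exact ex_gen hall hπ k hφ i j
    | zero => exact po_zero
    | add x y _ _ hx hy => exact po_add hx hy
    | smul c x _ hx => exact po_smul hx c
  refine po_approx hu fun ε hε => ?_
  obtain ⟨g, hg1, hg2⟩ := coef_dense_G hs f ε hε
  exact ⟨g, hg1, key _ hg2⟩

end Pool.Agent.Lib.MP_9fe581_an.HD
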