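import Pool.Agent.Lib.MP_9fe581_an.HD.Defs

/-!
# HD, T1: every rotation is the image of a totally irrational one, up to torsion

The subgroup of the circle generated by the coordinates of `α` is the product of a free group, with basis `β`,
and a finite group.
-/

open Finset MeasureTheory Filter Topology UnitAddTorus
open scoped ComplexConjugate Matrix DirectSum

namespace Pool.Agent.Lib.MP_9fe581_an.HD

variable {d : ℕ}

theorem rot_mF {r : ℕ} (k : Fin r → ℤ) (β : Td r) :
    mFourier k β = ((AddCircle.toCircle (∑ i, k i • β i) : Circle) : ℂ) := by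
  have h : ∀ s : Finset (Fin r), ((AddCircle.toCircle (∑ i ∈ s, k i • β i) : Circle) : ℂ)
      = ∏ i ∈ s, fourier (k i) (β i) := by
    intro s
    induction s using Finset.induction_on with
    | empty => simp
    | insert a s ha ih =>
      rw [Finset.sum_insert ha, Finset.prod_insert ha, AddCircle.toCircle_add, Circle.coe_mul, ih]
      rfl
  rw [h]
  rfl

theorem rot_dec (α : Td d) : ∃ (r : ℕ) (β : Td r) (C : Fin d → Fin r → ℤ) (ρ : Td d) (q : ℕ), 0 < q ∧ q • ρ = 0 ∧
    (∀ k : Fin r → ℤ, k ≠ 0 → mFourier k β ≠ 1) ∧ ∀ i, α i = (∑ k, C i k • β k) + ρ i := by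
  set H : AddSubgroup UnitAddCircle := AddSubgroup.closure (Set.range α) with hH
  have hfg : AddGroup.FG H := by
    rw [AddGroup.fg_iff_addSubgroup_fg]
    exact ⟨(Set.finite_range α).toFinset, by simp [hH]⟩
  obtain ⟨r, κ, _, p, hp, e, ⟨φ⟩⟩ := AddCommGroup.equiv_free_prod_directSum_zmod H
  classical
  have hmem : ∀ i, α i ∈ H := fun i => AddSubgroup.subset_closure (Set.mem_range_self i)
  set a : Fin d → H := fun i => ⟨α i, hmem i⟩ with ha
  -- torsion
  set q : ℕ := ∏ i, p i ^ e i with hq
  have hq0 : 0 < q := Finset.prod_pos fun i _ => pow_pos (hp i).pos _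
  have htors : ∀ t : ⨁ i : κ, ZMod (p i ^ e i), q • t = 0 := by
    intro t
    refine DFinsupp.ext fun i => ?_
    rw [DFinsupp.smul_apply, DFinsupp.zero_apply]
    obtain ⟨c, hc⟩ : p i ^ e i ∣ q := Finset.dvd_prod_of_mem _ (Finset.mem_univ i)
    rw [hc, nsmul_eq_mul, Nat.cast_mul, ZMod.natCast_self, zero_mul, zero_mul]
  set b : Fin r → H := fun k => φ.symm (Finsupp.single k 1, 0) with hb
  have hfree : ∀ f : Fin r →₀ ℤ, φ.symm (f, 0) = ∑ k, f k • b k := by
    intro f
    have h1 : ((f, 0) : (Fin r →₀ ℤ) × ⨁ i : κ, ZMod (p i ^ e i)) = ∑ k, f k • (Finsupp.single k 1, 0) := by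
      refine Prod.ext ?_ ?_
      · rw [Prod.fst_sum]
        simp only [Prod.smul_fst, Finsupp.smul_single, smul_eq_mul, mul_one]
        exact (Finsupp.univ_sum_single f).symm
      · rw [Prod.snd_sum]
        simp only [Prod.smul_snd, smul_zero, Finset.sum_const_zero]
    rw [h1, map_sum]
    refine Finset.sum_congr rfl fun k _ => ?_
    rw [map_zsmul]
  refine ⟨r, fun k => (b k : UnitAddCircle), fun i k => (φ (a i)).1 k,
    fun i => ((φ.symm (0, (φ (a i)).2) : H) : UnitAddCircle), q, hq0, ?_, ?_, ?_⟩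
  · funext i
    rw [Pi.smul_apply, Pi.zero_apply]
    have h1 : q • (φ.symm (0, (φ (a i)).2)) = 0 := by
      rw [← map_nsmul]
      have : q • ((0, (φ (a i)).2) : (Fin r →₀ ℤ) × ⨁ i : κ, ZMod (p i ^ e i)) = 0 := by
        refine Prod.ext ?_ ?_
        · simp
        · exact htors _
      rw [this, map_zero]
    have h2 := congrArg (fun z : H => (z : UnitAddCircle)) h1
    simpa using h2
  · intro k hk h
    apply hk
    rw [rot_mF] at h
    have h1 : AddCircle.toCircle (∑ i, k i • ((b i : H) : UnitAddCircle)) = AddCircle.toCircle (0 : UnitAddCircle) := by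
      rw [AddCircle.toCircle_zero]
      exact Subtype.ext h
    have h2 := AddCircle.injective_toCircle one_ne_zero h1
    have h3 : ((∑ i, k i • b i : H) : UnitAddCircle) = 0 := by
      rw [AddSubgroup.val_finsetSum]
      simpa using h2
    have h4 : (∑ i, k i • b i : H) = 0 := Subtype.ext h3
    have h5 : φ.symm (Finsupp.equivFunOnFinite.symm k, 0) = 0 := by
      rw [hfree, ← h4]
      rfl
    have h6 : ((Finsupp.equivFunOnFinite.symm k, 0) : (Fin r →₀ ℤ) × ⨁ i : κ, ZMod (p i ^ e i)) = 0 := by
      have := congrArg φ h5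
      rwa [AddEquiv.apply_symm_apply, map_zero] at this
    have h7 := congrArg Prod.fst h6
    funext i
    have h8 := DFunLike.congr_fun h7 i
    simpa using h8
  · intro i
    have h1 : a i = φ.symm ((φ (a i)).1, 0) + φ.symm (0, (φ (a i)).2) := by
      rw [← map_add, Prod.mk_add_mk, add_zero, zero_add, Prod.mk.eta, AddEquiv.symm_apply_apply]
    rw [hfree] at h1
    have h2 := congrArg (fun z : H => (z : UnitAddCircle)) h1
    simpa [AddSubgroup.val_finsetSum] using h2

end Pool.Agent.Lib.MP_9fe581_an.HD
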