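import Pool.Agent.Lib.MP_9fe581_an.HD.MNE
import Pool.Agent.Lib.MP_9fe581_an.HD.Obs.Rot
import Pool.Agent.Lib.MP_9fe581_an.HD.Obs.Block

/-!
# HD, T3: every continuous unitary cocycle over EVERY rotation, at every point
-/

open Finset MeasureTheory Filter Topology UnitAddTorus
open scoped ComplexConjugate Matrix

namespace Pool.Agent.Lib.MP_9fe581_an.HD


variable {d : ℕ} {ι : Type} [Fintype ι] [DecidableEq ι]
variable {α : Td d} {A : Td d → Matrix ι ι ℂ}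

theorem mall (hU : UC A 1) {u : ℕ → ℂ} (hu : BMult u) (hw : ∀ (w : ℂ) (q : ℕ), 0 < q → w ^ q = 1 → ShortOrth u w) (x : Td d) (ε : ℝ)
    (hε : 0 < ε) : ∃ N0 : ℕ, ∀ N ≥ N0, ∀ (i j : ι), ‖∑ n ∈ Icc 1 N, u n * cp α A 1 n x i j‖ ≤ ε * N := by
  obtain ⟨r, β, C, ρ, q, hq, hqρ, hβ, hα⟩ := rot_dec α
  have : NeZero q := ⟨hq.ne'⟩
  have hα' : α = psi C β + ρ := funext fun i => hα i
  have hqr : (0 : ℝ) < q := by exact_mod_cast hq
  obtain ⟨N0, hN0⟩ := mne (blk_uc hU C ρ q x) hβ hu hw (ε / q) (by positivity)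
  refine ⟨N0, fun N hN i j => ?_⟩
  have e1 : ∀ n : ℕ, cp α A 1 n x i j = ∑ t : ZMod q, cp β (blk A C ρ q x) 1 n 0 (t, i) (0, j) := by
    intro n
    rw [hα', blk_cp C ρ q hqρ β x n i j]
    exact (Finset.sum_eq_single (f := fun t : ZMod q => cp β (blk A C ρ q x) 1 n 0 (t, i) (0, j))
      ((n : ℕ) : ZMod q) (fun t _ ht => blk_cp_zero C ρ q β x n t ht i j)
      (fun h => absurd (Finset.mem_univ _) h)).symm
  simp_rw [e1, Finset.mul_sum]
  rw [Finset.sum_comm]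
  refine (norm_sum_le _ _).trans ?_
  have h1 : ∀ t ∈ (Finset.univ : Finset (ZMod q)),
      ‖∑ n ∈ Icc 1 N, u n * cp β (blk A C ρ q x) 1 n 0 (t, i) (0, j)‖ ≤ ε / q * N :=
    fun t _ => hN0 N hN 0 (t, i) (0, j)
  refine (Finset.sum_le_card_nsmul _ _ _ h1).trans_eq ?_
  rw [Finset.card_univ, ZMod.card, nsmul_eq_mul]
  field_simp

end Pool.Agent.Lib.MP_9fe581_an.HD
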